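import Pool.Agent.H51.EX.BAX

/-!
MP_65efe8_pr, board exa, row DNP: the mean of the share of a pair.
-/

set_option autoImplicit false

open MeasureTheory ProbabilityTheory Filter Topology
open scoped ENNReal
open Pool.Agent.H95 Pool.Agent.H95.Cop
open Pool.Agent.H55.CG (VV Mo)
open Pool.Agent.H98.SLN (RG TS MM YY sd)
open Pool.Agent.H98.EX

namespace Pool.Agent.H21.EX.DN

/-- Cauchy-Schwarz for nonnegative functions -/
theorem cs2 {Ω : Type} [MeasurableSpace Ω] {μ : Measure Ω} {f g : Ω → ℝ} (hf : Measurable f)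
    (hg : Measurable g) (f0 : ∀ x, 0 ≤ f x) (g0 : ∀ x, 0 ≤ g x)
    (hf2 : Integrable (fun x => f x ^ 2) μ) (hg2 : Integrable (fun x => g x ^ 2) μ) :
    ∫ x, f x * g x ∂μ ≤ Real.sqrt (∫ x, f x ^ 2 ∂μ) * Real.sqrt (∫ x, g x ^ 2 ∂μ) := by
  have e2 : ENNReal.ofReal (2 : ℝ) = 2 := by norm_num
  have h1 : MemLp f (ENNReal.ofReal 2) μ := by
    rw [e2]
    exact (memLp_two_iff_integrable_sq hf.aestronglyMeasurable).2 hf2
  have h2 : MemLp g (ENNReal.ofReal 2) μ := by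
    rw [e2]
    exact (memLp_two_iff_integrable_sq hg.aestronglyMeasurable).2 hg2
  have h3 := integral_mul_le_Lp_mul_Lq_of_nonneg Real.HolderConjugate.two_two
    (Eventually.of_forall f0) (Eventually.of_forall g0) h1 h2
  rw [Real.sqrt_eq_rpow, Real.sqrt_eq_rpow]
  have e3 : ∀ (u : Ω → ℝ), (∫ x, u x ^ (2 : ℝ) ∂μ) = ∫ x, u x ^ 2 ∂μ := by
    intro u
    refine integral_congr_ae (Eventually.of_forall fun x => ?_)
    show u x ^ (2 : ℝ) = u x ^ 2
    rw [← Real.rpow_natCast]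
    norm_num
  rw [e3, e3] at h3
  exact h3

theorem meas_NL (R a : ℕ) : Measurable fun y : ℕ → ℝ => NL R y a := by
  unfold NL VR VL H shift
  fun_prop

theorem meas_NR (R a : ℕ) : Measurable fun y : ℕ → ℝ => NR R y a := by
  unfold NR VR VL H shift
  fun_prop

theorem QQ_nonneg (ρ : Measure ℝ) (θ p : ℝ) (a b : ℕ) : 0 ≤ QQ ρ θ p a b := by
  unfold QQ
  refine integral_nonneg fun z => integral_nonneg fun y => ?_
  refine Real.rpow_nonneg ?_ _
  unfold VR VL
  positivity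

/-- the bad set is measurable -/
theorem meas_Bd (hUQB : Pool.Agent.H98.SLN.T_UQB) {k : ℕ} {ϑ : ℝ}
    (hy : Measurable (yk k ϑ)) (K : PMF ℕ) (q : ℕ) (β ζ η : ℝ) (n R a b : ℕ) :
    MeasurableSet {x : ℕ → ℝ | Bd K k q ϑ β ζ η n R x a b} := by
  have mc : Measurable fun x : ℕ → ℝ => cX k ϑ x a b :=
    (Pool.Agent.H75.EX.meas_H a (b + 1)).comp hy
  have M2 : MeasurableSet {y : ℕ → ℝ | η < RT (QS n \ NS R a b) y a b} :=
    measurableSet_lt measurable_const (Pool.Agent.H51.EX.meas_RT _ _ _)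
  have M3 : MeasurableSet {y : ℕ → ℝ | Real.exp (β * ζ / 4) < RT (QS n) y a b} :=
    measurableSet_lt measurable_const (Pool.Agent.H51.EX.meas_RT _ _ _)
  have M4 : MeasurableSet {x : ℕ → ℝ | β * ζ / 4 <
      |cX k ϑ x a b - ϑ / 4 * ((b : ℝ) + 1 - a)|} :=
    measurableSet_lt measurable_const (measurable_abs.comp (mc.sub_const _))
  have M1 : MeasurableSet {x : ℕ → ℝ | ¬ gX K k q ϑ x (a, b)} := by
    have : MeasurableSet {x : ℕ → ℝ | gX K k q ϑ x (a, b)} :=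
      measurableSet_le (mc.sub_const _) (Pool.Agent.H37.SLN.W1D.meas_YY hUQB K k q a b)
    exact this.compl
  have M2' : MeasurableSet {x | yk k ϑ x ∈ {y : ℕ → ℝ | η < RT (QS n \ NS R a b) y a b}} :=
    hy M2
  have M3' : MeasurableSet {x | yk k ϑ x ∈
      {y : ℕ → ℝ | Real.exp (β * ζ / 4) < RT (QS n) y a b}} := hy M3
  exact M1.union (M2'.union (M3'.union M4))

theorem pf_DNP (hTLQ : Pool.Agent.H98.SLN.T_TLQ) (hUQB : Pool.Agent.H98.SLN.T_UQB)
    (hYSM : T_YSM) (hNRX : T_NRX) (hIDX : T_IDX) : T_DNP := by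
  classical
  intro K ν α c δ r ϑ ε τ β ζ η k q n R D J h j j3 jJ p hp P hP hBd
  obtain ⟨a, b⟩ := p
  have heg := h.lm.eg
  have hprob := heg.prob
  have hk1 : 1 ≤ k := (hTLQ K α c δ k q h.rx.rg).1
  obtain ⟨hmp, hρ, hint, -, -⟩ := hYSM ν heg.exp k ϑ hk1
  have hϑ := h.ϑ0
  have hβ := h.β0
  have hζ := h.ζ0
  have hα0 := h.rx.rg.α0
  have hα1 := h.rx.rg.α1
  have hδ2 : δ ≤ 1 / 4 := h.rx.rg.δ1.trans (by norm_num)
  have hαp : 0 < 1 + α := by linarith
  have γ2 : 1 / (1 + α) ≤ 1 := by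
    rw [div_le_iff₀ hαp]
    linarith
  obtain ⟨γ, hγ⟩ : ∃ γ : ℝ, γ = 1 / (1 + α) := ⟨_, rfl⟩
  simp only [← hγ] at hBd γ2 ⊢
  -- the pair
  unfold WS at hp
  rw [Finset.mem_filter, Finset.mem_product, Finset.mem_range, Finset.mem_range] at hp
  obtain ⟨⟨han, hbn⟩, hRa, hbR, hp1, hp2⟩ := hp
  simp only at han hbn hRa hbR hp1 hp2
  have hj3 : (3 : ℝ) ≤ j := by exact_mod_cast j3
  have D1 : 12 * β / ϑ ≤ (b : ℝ) + 1 - a := by
    refine le_trans ?_ hp1
    apply div_le_div_of_nonneg_right _ hϑ.le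
    nlinarith
  have hR2 := h.R2
  have hab : a + 2 * R ≤ b := by
    have h1 := h.Rβ
    have h2 : (a : ℝ) + 2 * R ≤ b := by linarith
    exact_mod_cast h2
  have hab' : a ≤ b := by omega
  have hN := fun y => (hNRX y R a b hRa hab).2
  -- the functions
  set ρ := rl ν k ϑ with hρd
  set M : ℝ := Mo ρ γ ^ (b + 1 - a) with hM
  have hM0 : 0 ≤ M := pow_nonneg (integral_nonneg fun z => (Real.exp_pos _).le) _
  set Nf : (ℕ → ℝ) → ℝ := fun y => NL R y a * NR R y b with hNf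
  have hNm : Measurable Nf := (meas_NL R a).mul (meas_NR R b)
  have hN1 : ∀ y, 1 ≤ Nf y := fun y => by
    have h1 := (hN y).1
    have h2 := (hN y).2
    simp only [hNf]
    nlinarith
  have hN0 : ∀ y, 0 < Nf y := fun y => lt_of_lt_of_le one_pos (hN1 y)
  obtain ⟨i1, e1⟩ := hIDX ρ hint γ (1 - γ) R a b (by linarith) (by omega) hRa hab
  obtain ⟨i2, e2⟩ := hIDX ρ hint γ (2 - 2 * γ) R a b (by linarith) (by omega) hRa hab
  have mE : Measurable fun y : ℕ → ℝ => H y a (b + 1) := Pool.Agent.H75.EX.meas_H _ _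
  set G1 : (ℕ → ℝ) → ℝ := fun y => Real.exp (γ * H y a (b + 1)) * Nf y ^ (-(1 - γ)) with hG1
  set G2 : (ℕ → ℝ) → ℝ := fun y => Real.exp (γ * H y a (b + 1)) * Nf y ^ (-(2 - 2 * γ)) with hG2
  have mG1 : Measurable G1 :=
    (Real.measurable_exp.comp (mE.const_mul γ)).mul (hNm.pow_const _)
  have mG2 : Measurable G2 :=
    (Real.measurable_exp.comp (mE.const_mul γ)).mul (hNm.pow_const _)
  have G10 : ∀ y, 0 ≤ G1 y := fun y =>
    mul_nonneg (Real.exp_pos _).le (Real.rpow_nonneg (hN0 y).le _)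
  have G20 : ∀ y, 0 ≤ G2 y := fun y =>
    mul_nonneg (Real.exp_pos _).le (Real.rpow_nonneg (hN0 y).le _)
  set A : Set (ℕ → ℝ) := {x | Bd K k q ϑ β ζ η n R x a b} with hA
  have mA : MeasurableSet A := meas_Bd hUQB hmp.measurable K q β ζ η n R a b
  -- transfer
  have I1 : Integrable (fun x => G1 (yk k ϑ x)) (iid ν) := hmp.integrable_comp_of_integrable i1
  have I2 : Integrable (fun x => G2 (yk k ϑ x)) (iid ν) := hmp.integrable_comp_of_integrable i2
  have E1 : ∫ x, G1 (yk k ϑ x) ∂(iid ν) = M * QQ ρ γ (1 - γ) R R ^ 2 := by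
    rw [← e1, ← hmp.map_eq, integral_map hmp.measurable.aemeasurable mG1.aestronglyMeasurable]
  have E2 : ∫ x, G2 (yk k ϑ x) ∂(iid ν) = M * QQ ρ γ (2 - 2 * γ) R R ^ 2 := by
    rw [← e2, ← hmp.map_eq, integral_map hmp.measurable.aemeasurable mG2.aestronglyMeasurable]
  -- the share
  have hsh : (fun x : ℕ → ℝ => sh K k q ϑ β ζ η γ n R x a b) =
      Aᶜ.indicator fun x => G1 (yk k ϑ x) := by
    funext x
    unfold sh
    by_cases hx : Bd K k q ϑ β ζ η n R x a b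
    · rw [if_neg (not_not.2 hx), Set.indicator_of_notMem]
      exact fun hc => hc hx
    · rw [if_pos hx, Set.indicator_of_mem (show x ∈ Aᶜ from hx)]
      simp only [hG1, hNf, cX]
      rw [neg_sub]
  have hIs : Integrable (fun x : ℕ → ℝ => sh K k q ϑ β ζ η γ n R x a b) (iid ν) := by
    rw [hsh]
    exact I1.indicator mA.compl
  refine ⟨hIs, ?_⟩
  have hint1 : ∫ x, sh K k q ϑ β ζ η γ n R x a b ∂(iid ν) =
      M * QQ ρ γ (1 - γ) R R ^ 2 - ∫ x in A, G1 (yk k ϑ x) ∂(iid ν) := by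
    rw [hsh, integral_indicator mA.compl, ← E1]
    have := integral_add_compl mA I1
    linarith
  rw [hint1]
  -- Cauchy-Schwarz on the bad set
  set f : (ℕ → ℝ) → ℝ := fun x => Real.exp (γ * cX k ϑ x a b / 2) with hf
  set g : (ℕ → ℝ) → ℝ := fun x =>
    Real.exp (γ * cX k ϑ x a b / 2) * Nf (yk k ϑ x) ^ (-(1 - γ)) with hg
  have mc : Measurable fun x : ℕ → ℝ => cX k ϑ x a b := mE.comp hmp.measurable
  have mf : Measurable f := Real.measurable_exp.comp ((mc.const_mul γ).div_const 2)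
  have mg : Measurable g := mf.mul ((hNm.comp hmp.measurable).pow_const _)
  have f0 : ∀ x, 0 ≤ f x := fun x => (Real.exp_pos _).le
  have g0 : ∀ x, 0 ≤ g x := fun x =>
    mul_nonneg (Real.exp_pos _).le (Real.rpow_nonneg (hN0 _).le _)
  have f2 : ∀ x, f x ^ 2 = Real.exp (γ * cX k ϑ x a b) := by
    intro x
    simp only [hf]
    rw [← Real.exp_nat_mul]
    congr 1
    push_cast
    ring
  have g2 : ∀ x, g x ^ 2 = G2 (yk k ϑ x) := by
    intro x
    have h1 : g x ^ 2 = f x ^ 2 * (Nf (yk k ϑ x) ^ (-(1 - γ))) ^ 2 := by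
      simp only [hg, hf]
      ring
    rw [h1, f2]
    simp only [hG2]
    congr 1
    rw [← Real.rpow_natCast, ← Real.rpow_mul (hN0 _).le]
    congr 1
    push_cast
    ring
  have fg : ∀ x, f x * g x = G1 (yk k ϑ x) := by
    intro x
    have h1 : f x * g x = f x ^ 2 * Nf (yk k ϑ x) ^ (-(1 - γ)) := by
      simp only [hg, hf]
      ring
    rw [h1, f2]
    simp only [hG1, cX]
  have If : Integrable (fun x => f x ^ 2) (iid ν) := by
    have h1 : Integrable (fun x : ℕ → ℝ => Real.exp (γ * cX k ϑ x a b)) (iid ν) :=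
      hmp.integrable_comp_of_integrable (Pool.Agent.H51.EX.int_expH ρ hint γ hab')
    exact h1.congr (Eventually.of_forall fun x => (f2 x).symm)
  have Ig : Integrable (fun x => g x ^ 2) (iid ν) :=
    I2.congr (Eventually.of_forall fun x => (g2 x).symm)
  have hcs := cs2 (μ := (iid ν).restrict A) mf mg f0 g0 If.integrableOn Ig.integrableOn
  have hfA : ∫ x in A, f x ^ 2 ∂(iid ν) ≤ M * P := by
    refine le_trans (le_of_eq ?_) hBd
    exact integral_congr_ae (Eventually.of_forall f2)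
  have hgA : ∫ x in A, g x ^ 2 ∂(iid ν) ≤ M * QQ ρ γ (2 - 2 * γ) R R ^ 2 := by
    rw [← E2]
    refine le_trans (setIntegral_le_integral Ig (Eventually.of_forall fun x => sq_nonneg _)) ?_
    exact le_of_eq (integral_congr_ae (Eventually.of_forall g2))
  have hq0 : 0 ≤ QQ ρ γ (2 - 2 * γ) R R := QQ_nonneg _ _ _ _ _
  have hfin : ∫ x in A, G1 (yk k ϑ x) ∂(iid ν) ≤
      M * (Real.sqrt P * QQ ρ γ (2 - 2 * γ) R R) := by
    have h1 : ∫ x in A, G1 (yk k ϑ x) ∂(iid ν) = ∫ x in A, f x * g x ∂(iid ν) :=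
      integral_congr_ae (Eventually.of_forall fun x => (fg x).symm)
    rw [h1]
    refine hcs.trans ?_
    refine (mul_le_mul (Real.sqrt_le_sqrt hfA) (Real.sqrt_le_sqrt hgA) (Real.sqrt_nonneg _)
      (Real.sqrt_nonneg _)).trans (le_of_eq ?_)
    rw [Real.sqrt_mul hM0, Real.sqrt_mul hM0, Real.sqrt_sq hq0]
    have h2 : Real.sqrt M * Real.sqrt M = M := Real.mul_self_sqrt hM0
    calc Real.sqrt M * Real.sqrt P * (Real.sqrt M * QQ ρ γ (2 - 2 * γ) R R)
        = Real.sqrt M * Real.sqrt M * (Real.sqrt P * QQ ρ γ (2 - 2 * γ) R R) := by ring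
      _ = M * (Real.sqrt P * QQ ρ γ (2 - 2 * γ) R R) := by rw [h2]
  have hgoal : M * (QQ ρ γ (1 - γ) R R ^ 2 - Real.sqrt P * QQ ρ γ (2 - 2 * γ) R R) =
      M * QQ ρ γ (1 - γ) R R ^ 2 - M * (Real.sqrt P * QQ ρ γ (2 - 2 * γ) R R) := by ring
  rw [hgoal]
  linarith

end Pool.Agent.H21.EX.DN
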