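import Pool.Agent.H98.EX.PTargets
import Pool.Agent.H86.SLN.USB

/-!
# Row MSX of the board `exa_modules`: the neutral mass
-/

set_option autoImplicit false

open MeasureTheory ProbabilityTheory Filter Topology
open Pool.Agent.H95 Pool.Agent.H95.Cop
open Pool.Agent.H98.SLN (RG TS kt VB)
open Pool.Agent.H98.EX (RX T_MSX)

namespace Pool.Agent.H21.EX.MSX

/-- the mass of a kernel of mass at most one -/
theorem mass_le (hRID : Pool.Agent.H98.SLN.T_RID) (f : ℕ → ℝ) (h0 : f 0 = 0) (hn : ∀ n, 0 ≤ f n)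
    (hs : ∀ N, ∑ n ∈ Finset.range N, f n ≤ 1) (k M : ℕ) (S : ℝ)
    (hT : S ≤ ∑ j ∈ Finset.range M, (1 - ∑ m ∈ Finset.range (j + 1), f m)) :
    (∑ n ∈ Finset.range k, uu f n) * S ≤ k + M := by
  obtain ⟨T, hTdef⟩ : ∃ T : ℕ → ℝ, T = fun j => 1 - ∑ i ∈ Finset.range j, f i := ⟨_, rfl⟩
  have hT0 : ∀ j, 0 ≤ T j := by
    intro j
    rw [hTdef]
    have := hs j
    show 0 ≤ 1 - ∑ i ∈ Finset.range j, f i
    linarith
  have hu : ∀ n, 0 ≤ uu f n := uu_nonneg f hn
  have h1 : ((k + M : ℕ) : ℝ) = ∑ m ∈ Finset.range (k + M), ∑ n ∈ Finset.range (m + 1),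
      uu f n * T (m + 1 - n) := by
    have h2 : ∀ m ∈ Finset.range (k + M), ∑ n ∈ Finset.range (m + 1),
        uu f n * T (m + 1 - n) = 1 := by
      intro m _
      rw [hTdef]
      exact hRID f h0 m
    rw [Finset.sum_congr rfl h2]
    simp
  have h3 : ∑ m ∈ Finset.range (k + M), ∑ n ∈ Finset.range (m + 1), uu f n * T (m + 1 - n) =
      ∑ n ∈ Finset.range (k + M), ∑ m ∈ Finset.Ico n (k + M), uu f n * T (m + 1 - n) := by
    refine Finset.sum_comm' fun m n => ?_
    simp only [Finset.mem_range, Finset.mem_Ico]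
    omega
  have h4 : ∑ n ∈ Finset.range k, ∑ m ∈ Finset.Ico n (k + M), uu f n * T (m + 1 - n) ≤
      ∑ n ∈ Finset.range (k + M), ∑ m ∈ Finset.Ico n (k + M), uu f n * T (m + 1 - n) := by
    refine Finset.sum_le_sum_of_subset_of_nonneg ?_ ?_
    · intro n hn
      rw [Finset.mem_range] at hn ⊢
      omega
    · intro n _ _
      exact Finset.sum_nonneg fun m _ => mul_nonneg (hu n) (hT0 _)
  have h5 : (∑ n ∈ Finset.range k, uu f n) * S ≤
      ∑ n ∈ Finset.range k, ∑ m ∈ Finset.Ico n (k + M), uu f n * T (m + 1 - n) := by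
    rw [Finset.sum_mul]
    refine Finset.sum_le_sum fun n hn => ?_
    rw [Finset.mem_range] at hn
    rw [Finset.sum_Ico_eq_sum_range, ← Finset.mul_sum]
    refine mul_le_mul_of_nonneg_left ?_ (hu n)
    have e1 : ∀ i ∈ Finset.range (k + M - n), T (n + i + 1 - n) = T (i + 1) := by
      intro i _
      congr 1
      omega
    rw [Finset.sum_congr rfl e1]
    refine hT.trans ?_
    have e2 : ∑ j ∈ Finset.range M, (1 - ∑ m ∈ Finset.range (j + 1), f m) =
        ∑ j ∈ Finset.range M, T (j + 1) := by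
      rw [hTdef]
    rw [e2]
    refine Finset.sum_le_sum_of_subset_of_nonneg ?_ fun j _ _ => hT0 _
    intro j hj
    rw [Finset.mem_range] at hj ⊢
    omega
  rw [← h3, ← h1] at h4
  have h6 := h5.trans h4
  push_cast at h6
  linarith

/-- the tails of the neutral kernel -/
theorem tail_le (K : PMF ℕ) (α c δ r ϑ : ℝ) (k q : ℕ) (h : RX K α c δ r k q) (h0 : 0 < ϑ)
    (h1 : ϑ ≤ 1 / 64) (hr : r ≤ ϑ / 8) (hδ : δ ≤ ϑ / 16) (hk : 16 ≤ ϑ * k) (a : ℝ)
    (ha : 0 ≤ a) (hTS : 0 < TS K k) :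
    (k + (⌈r * k⌉₊ : ℕ) : ℝ) ≤ (1 + ϑ) * k * (1 - r - δ) ∧ (1 - r - δ) * TS K k ≤
      ∑ j ∈ Finset.range ⌈r * k⌉₊,
        (1 - ∑ m ∈ Finset.range (j + 1), kt K k (ϑ / k) m * Real.exp (-(a * m))) := by
  have hk0 : (0 : ℝ) < k := by
    rcases Nat.eq_zero_or_pos k with hz | hz
    · rw [hz] at hk
      norm_num at hk
    · exact_mod_cast hz
  obtain ⟨M, hM⟩ : ∃ M : ℕ, M = ⌈r * k⌉₊ := ⟨_, rfl⟩
  rw [← hM]
  have hr0 := h.r0
  have hδ0 := h.rg.δ0
  have hM1 : r * k ≤ M := by rw [hM]; exact Nat.le_ceil _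
  have hM2 : (M : ℝ) < r * k + 1 := by
    rw [hM]
    exact Nat.ceil_lt_add_one (by positivity)
  have hk1 : 1 ≤ ϑ * k / 16 := by linarith
  have hM3 : (M : ℝ) ≤ 3 * ϑ / 16 * k := by
    have : r * k ≤ ϑ / 8 * k := mul_le_mul_of_nonneg_right hr hk0.le
    linarith
  have hM4 : M ≤ k := by
    have : (M : ℝ) ≤ k := by
      refine hM3.trans ?_
      have : 3 * ϑ / 16 * k ≤ 1 * k := mul_le_mul_of_nonneg_right (by linarith) hk0.le
      linarith
    exact_mod_cast this
  constructor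
  · have e1 : (k + M : ℝ) ≤ (1 + 3 * ϑ / 16) * k := by linarith
    refine e1.trans ?_
    have e2 : (1 + 3 * ϑ / 16) ≤ (1 + ϑ) * (1 - r - δ) := by
      nlinarith
    calc (1 + 3 * ϑ / 16) * k ≤ ((1 + ϑ) * (1 - r - δ)) * k :=
          mul_le_mul_of_nonneg_right e2 hk0.le
      _ = (1 + ϑ) * k * (1 - r - δ) := by ring
  · -- the tail
    obtain ⟨D, hD⟩ : ∃ D : ℝ, D = (ϑ / k) ^ 2 * ∑ n ∈ Finset.range (k + 1), (n : ℝ) ^ 2 * kk K n :=
      ⟨_, rfl⟩
    have hα0 := h.rg.α0
    have hDle : M * D ≤ δ * TS K k := by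
      have e1 : D ≤ (ϑ / k) ^ 2 * (4 * c * (k : ℝ) ^ (2 - α)) := by
        rw [hD]
        exact mul_le_mul_of_nonneg_left h.rg.s2 (by positivity)
      have e2 : (k : ℝ) ^ (2 - α) = k * (k : ℝ) ^ (1 - α) := by
        rw [show 2 - α = 1 + (1 - α) by ring, Real.rpow_add hk0, Real.rpow_one]
      have e3 : c * (k : ℝ) ^ (1 - α) ≤ 2 * (δ * TS K k) := by
        refine h.v1.trans (mul_le_mul_of_nonneg_right ?_ (by positivity))
        have := h.r1
        linarith
      have e4 : D ≤ 8 * ϑ ^ 2 / k * (δ * TS K k) := by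
        calc D ≤ (ϑ / k) ^ 2 * (4 * c * (k : ℝ) ^ (2 - α)) := e1
          _ = 4 * ϑ ^ 2 / k * (c * (k : ℝ) ^ (1 - α)) := by
              rw [e2]
              field_simp
          _ ≤ 4 * ϑ ^ 2 / k * (2 * (δ * TS K k)) :=
              mul_le_mul_of_nonneg_left e3 (by positivity)
          _ = 8 * ϑ ^ 2 / k * (δ * TS K k) := by ring
      have hδT : 0 ≤ δ * TS K k := by positivity
      calc (M : ℝ) * D ≤ (3 * ϑ / 16 * k) * (8 * ϑ ^ 2 / k * (δ * TS K k)) := by
            refine mul_le_mul hM3 e4 ?_ (by positivity)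
            rw [hD]
            exact mul_nonneg (by positivity) (Finset.sum_nonneg fun n _ =>
              mul_nonneg (by positivity) (kk_nonneg K n))
        _ = (3 / 2 * ϑ ^ 3) * (δ * TS K k) := by
            field_simp
            ring
        _ ≤ 1 * (δ * TS K k) := by
            refine mul_le_mul_of_nonneg_right ?_ hδT
            have : ϑ ^ 3 ≤ (1 / 64) ^ 3 := pow_le_pow_left₀ h0.le h1 3
            norm_num at this
            linarith
        _ = δ * TS K k := one_mul _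
    have hj : ∀ j ∈ Finset.range M, tailK K (j + 1) - D ≤
        1 - ∑ m ∈ Finset.range (j + 1), kt K k (ϑ / k) m * Real.exp (-(a * m)) := by
      intro j hj
      rw [Finset.mem_range] at hj
      have e1 : ∀ m ∈ Finset.range (j + 1), kt K k (ϑ / k) m * Real.exp (-(a * m)) ≤
          kk K m + (ϑ / k) ^ 2 * ((m : ℝ) ^ 2 * kk K m) := by
        intro m hm
        rw [Finset.mem_range] at hm
        unfold kt
        rw [if_pos (by omega)]
        have e3 : Real.exp (-(a * m)) ≤ 1 := by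
          rw [Real.exp_le_one_iff]
          have : 0 ≤ a * m := by positivity
          linarith
        have e4 : 0 ≤ kk K m * (1 + (ϑ / k * m) ^ 2) :=
          mul_nonneg (kk_nonneg K m) (by positivity)
        calc kk K m * (1 + (ϑ / k * m) ^ 2) * Real.exp (-(a * m))
            ≤ kk K m * (1 + (ϑ / k * m) ^ 2) * 1 := mul_le_mul_of_nonneg_left e3 e4
          _ = kk K m + (ϑ / k) ^ 2 * ((m : ℝ) ^ 2 * kk K m) := by ring
      have e2 := Finset.sum_le_sum e1
      rw [Finset.sum_add_distrib, ← Finset.mul_sum] at e2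
      have e3 : (ϑ / k) ^ 2 * ∑ m ∈ Finset.range (j + 1), (m : ℝ) ^ 2 * kk K m ≤ D := by
        rw [hD]
        refine mul_le_mul_of_nonneg_left ?_ (by positivity)
        refine Finset.sum_le_sum_of_subset_of_nonneg ?_ fun n _ _ =>
          mul_nonneg (by positivity) (kk_nonneg K n)
        intro m hm
        rw [Finset.mem_range] at hm ⊢
        omega
      have e5 : tailK K (j + 1) = 1 - ∑ m ∈ Finset.range (j + 1), kk K m := rfl
      rw [e5]
      linarith
    have hsum := Finset.sum_le_sum hj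
    refine le_trans ?_ hsum
    rw [Finset.sum_sub_distrib, Finset.sum_const, Finset.card_range, nsmul_eq_mul]
    have hsv := h.sv M hM1 hM4
    have e6 : ∑ j ∈ Finset.range M, tailK K (j + 1) = TS K M := rfl
    rw [e6]
    have e7 : (1 - r - δ) * TS K k = (1 - r) * TS K k - δ * TS K k := by ring
    rw [e7]
    linarith

end Pool.Agent.H21.EX.MSX

namespace Pool.Agent.H21.EX

open Pool.Agent.H98.EX Pool.Agent.H21.EX.MSX

theorem pf_MSX (hRID : Pool.Agent.H98.SLN.T_RID) (hWIN : Pool.Agent.H98.SLN.T_WIN)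
    (hUSP : Pool.Agent.H98.SLN.T_USP) : T_MSX := by
  intro K α c δ r ϑ k q h hϑ0 hϑ1 hrϑ hδϑ hkϑ b
  have hk0 : (0 : ℝ) < k := by
    rcases Nat.eq_zero_or_pos k with hz | hz
    · rw [hz] at hkϑ
      norm_num at hkϑ
    · exact_mod_cast hz
  have hδ := h.rg.δ0
  have hTS : 0 < TS K k := by
    have h1 : 0 < c * (k : ℝ) ^ (1 - α) := mul_pos h.rg.c0 (Real.rpow_pos_of_pos hk0 _)
    have h2 := h1.trans_le h.v1
    by_contra hc
    push Not at hc
    have h3 : (1 + r) * (δ * TS K k) ≤ 0 := by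
      have := h.r0
      exact mul_nonpos_of_nonneg_of_nonpos (by linarith)
        (mul_nonpos_of_nonneg_of_nonpos hδ.le hc)
    linarith
  obtain ⟨τ, hτ⟩ : ∃ τ : ℝ, τ = ϑ / k := ⟨_, rfl⟩
  have hτ0 : 0 ≤ τ := by rw [hτ]; positivity
  have hτk : τ * k ≤ 1 := by
    rw [hτ, div_mul_cancel₀ _ hk0.ne']
    linarith
  obtain ⟨hs, _⟩ := hUSP K α c δ k q h.rg τ hτ0 hτk
  obtain ⟨a, ha⟩ : ∃ a : ℝ, a = 64 * δ / k := ⟨_, rfl⟩
  have ha0 : 0 < a := by rw [ha]; positivity
  obtain ⟨hkM, hT⟩ := tail_le K α c δ r ϑ k q h hϑ0 hϑ1 hrϑ hδϑ hkϑ a ha0.le hTS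
  rw [← hτ] at hT
  rw [← hτ]
  obtain ⟨f, hf⟩ : ∃ f : ℕ → ℝ, f = fun m => kt K k τ m * Real.exp (-(a * m)) := ⟨_, rfl⟩
  have hfm : ∀ m : ℕ, kt K k τ m * Real.exp (-(64 * δ * m / k)) = f m := by
    intro m
    rw [hf]
    show _ = kt K k τ m * Real.exp (-(a * m))
    rw [ha]
    congr 3
    ring
  have hfm' : ∀ m : ℕ, kt K k τ m * Real.exp (-(a * m)) = f m := by
    intro m
    rw [hf]
  simp only [hfm] at hs
  simp only [hfm'] at hT
  have hkt0 : ∀ m, 0 ≤ kt K k τ m := by
    intro m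
    unfold kt
    split_ifs
    · exact mul_nonneg (kk_nonneg K m) (by positivity)
    · exact le_rfl
  have hf0 : f 0 = 0 := by
    rw [hf]
    show kt K k τ 0 * Real.exp (-(a * (0 : ℕ))) = 0
    unfold kt
    rw [if_pos (Nat.zero_le _), kk_zero K h.rg.K0]
    simp
  have hfn : ∀ n, 0 ≤ f n := by
    intro n
    rw [hf]
    exact mul_nonneg (hkt0 n) (Real.exp_pos _).le
  have huf : ∀ n, 0 ≤ uu f n := uu_nonneg f hfn
  have hU := mass_le hRID f hf0 hfn hs k ⌈r * k⌉₊ ((1 - r - δ) * TS K k) hT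
  obtain ⟨U, hUdef⟩ : ∃ U : ℝ, U = ∑ n ∈ Finset.range k, uu f n := ⟨_, rfl⟩
  rw [← hUdef] at hU
  have hU' : U ≤ (1 + ϑ) * k / TS K k := by
    rw [le_div_iff₀ hTS]
    have hp : 0 < 1 - r - δ := by
      have := h.r1
      linarith
    have e1 : U * TS K k * (1 - r - δ) ≤ (1 + ϑ) * k * (1 - r - δ) := by
      calc U * TS K k * (1 - r - δ) = U * ((1 - r - δ) * TS K k) := by ring
        _ ≤ k + (⌈r * k⌉₊ : ℕ) := hU
        _ ≤ _ := hkM
    exact le_of_mul_le_mul_right e1 hp
  have hE0 : 0 < Real.exp (64 * δ * (b + 1)) := Real.exp_pos _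
  have hin : ∀ e ∈ Finset.range k, (∑ r ∈ Finset.range k,
      if e ≤ b * k + r then uu (kt K k τ) (b * k + r - e) else 0) ≤
        Real.exp (64 * δ * (b + 1)) * U := by
    intro e he
    rw [Finset.mem_range] at he
    have h1 : (∑ r ∈ Finset.range k, if e ≤ b * k + r then uu (kt K k τ) (b * k + r - e) else 0) ≤
        Real.exp (64 * δ * (b + 1)) *
          ∑ r ∈ Finset.range k, if e ≤ b * k + r then uu f (b * k + r - e) else 0 := by
      rw [Finset.mul_sum]
      refine Finset.sum_le_sum fun r hr => ?_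
      rw [Finset.mem_range] at hr
      split_ifs with hc
      · have h2 : uu f (b * k + r - e) = Real.exp (-(a * ((b * k + r - e : ℕ) : ℝ))) *
            uu (kt K k τ) (b * k + r - e) := by
          rw [hf]
          exact Pool.Agent.H86.SLN.uu_tilt _ _ _
        have h3 : uu (kt K k τ) (b * k + r - e) =
            Real.exp (a * ((b * k + r - e : ℕ) : ℝ)) * uu f (b * k + r - e) := by
          rw [h2, ← mul_assoc, ← Real.exp_add, add_neg_cancel, Real.exp_zero, one_mul]
        rw [h3]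
        refine mul_le_mul_of_nonneg_right (Real.exp_le_exp.2 ?_) (huf _)
        have h4 : ((b * k + r - e : ℕ) : ℝ) ≤ ((b : ℝ) + 1) * k := by
          have : b * k + r - e ≤ (b + 1) * k := by
            have : (b + 1) * k = b * k + k := by ring
            omega
          exact_mod_cast this
        calc a * ((b * k + r - e : ℕ) : ℝ) ≤ a * (((b : ℝ) + 1) * k) :=
              mul_le_mul_of_nonneg_left h4 ha0.le
          _ = 64 * δ * (b + 1) := by
              rw [ha]
              field_simp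
      · rw [mul_zero]
    refine h1.trans (mul_le_mul_of_nonneg_left ?_ hE0.le)
    rcases Nat.eq_zero_or_pos b with hb | hb
    · subst hb
      have h2 : (∑ r ∈ Finset.range k, if e ≤ 0 * k + r then uu f (0 * k + r - e) else 0) =
          ∑ r ∈ Finset.Ico e k, uu f (r - e) := by
        rw [← Finset.sum_filter]
        have h3 : (Finset.range k).filter (fun r => e ≤ 0 * k + r) = Finset.Ico e k := by
          ext r
          simp only [Finset.mem_filter, Finset.mem_range, Finset.mem_Ico]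
          omega
        rw [h3]
        refine Finset.sum_congr rfl fun r _ => ?_
        congr 1
        omega
      rw [h2, Finset.sum_Ico_eq_sum_range, hUdef]
      have h4 : ∀ i ∈ Finset.range (k - e), uu f (e + i - e) = uu f i := by
        intro i _
        congr 1
        omega
      rw [Finset.sum_congr rfl h4]
      refine Finset.sum_le_sum_of_subset_of_nonneg ?_ fun j _ _ => huf _
      intro j hj
      rw [Finset.mem_range] at hj ⊢
      omega
    · have hbk : e ≤ b * k := by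
        have : k ≤ b * k := Nat.le_mul_of_pos_left k hb
        omega
      have h2 : (∑ r ∈ Finset.range k, if e ≤ b * k + r then uu f (b * k + r - e) else 0) =
          ∑ n ∈ Finset.Ico (b * k - e) (b * k - e + k), uu f n := by
        rw [Finset.sum_Ico_eq_sum_range]
        have h3 : b * k - e + k - (b * k - e) = k := by omega
        rw [h3]
        refine Finset.sum_congr rfl fun r _ => ?_
        rw [if_pos (by omega)]
        congr 1
        omega
      rw [h2, hUdef]
      exact hWIN f hf0 hfn hs _ _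
  unfold VB
  calc (∑ e ∈ Finset.range k, ∑ r ∈ Finset.range k,
        if e ≤ b * k + r then uu (kt K k τ) (b * k + r - e) else 0)
      ≤ ∑ e ∈ Finset.range k, Real.exp (64 * δ * (b + 1)) * U := Finset.sum_le_sum hin
    _ = k * (Real.exp (64 * δ * (b + 1)) * U) := by
        rw [Finset.sum_const, Finset.card_range, nsmul_eq_mul]
    _ ≤ k * (Real.exp (64 * δ * (b + 1)) * ((1 + ϑ) * k / TS K k)) := by gcongr
    _ = Real.exp (64 * δ * (b + 1)) * ((1 + ϑ) * (k : ℝ) ^ 2 / TS K k) := by ring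

end Pool.Agent.H21.EX
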