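import Pool.Agent.H98.EX.LTargets

/-!
MP_65efe8_pr, board exa, row SRX: sum over the pairs of cells outside a square around `(a, b)` of
`r` to the power of the number of cells in exactly one of two intervals.
-/

set_option autoImplicit false

open Pool.Agent.H98.EX
open Pool.Agent.H98.SLN (sd)

namespace Pool.Agent.H21.EX.SR

private lemma srx_geo {ι : Type} (S : Finset ι) (g : ι → ℕ) (r : ℝ) (h0 : 0 < r) (h1 : r < 1)
    (hg : ∀ i ∈ S, ∀ j ∈ S, g i = g j → i = j) : ∑ i ∈ S, r ^ g i ≤ 1 / (1 - r) := by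
  classical
  have h2 : ∑ i ∈ S, r ^ g i = ∑ k ∈ S.image g, r ^ k := by
    rw [Finset.sum_image]
    intro i hi j hj hij
    exact hg i hi j hj hij
  rw [h2, one_div, ← tsum_geometric_of_lt_one h0.le h1]
  exact (summable_geometric_of_lt_one h0.le h1).sum_le_tsum _ fun k _ => by positivity

private def dd (x y : ℕ) : ℕ := (x - y) + (y - x)

private lemma srx_dd (n a : ℕ) (r : ℝ) (h0 : 0 < r) (h1 : r < 1) :
    ∑ x ∈ Finset.range n, r ^ dd a x ≤ 2 / (1 - r) := by
  classical
  rw [← Finset.sum_filter_add_sum_filter_not (Finset.range n) (fun x => x ≤ a)]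
  have e1 : ∑ x ∈ (Finset.range n).filter (fun x => x ≤ a), r ^ dd a x ≤ 1 / (1 - r) := by
    refine srx_geo _ (fun x => dd a x) r h0 h1 ?_
    intro i hi j hj hij
    rw [Finset.mem_filter] at hi hj
    simp only [dd] at hij
    omega
  have e2 : ∑ x ∈ (Finset.range n).filter (fun x => ¬ x ≤ a), r ^ dd a x ≤ 1 / (1 - r) := by
    refine srx_geo _ (fun x => dd a x) r h0 h1 ?_
    intro i hi j hj hij
    rw [Finset.mem_filter] at hi hj
    simp only [dd] at hij
    omega
  calc _ ≤ 1 / (1 - r) + 1 / (1 - r) := add_le_add e1 e2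
    _ = 2 / (1 - r) := by ring

private lemma srx_meet (a b a' b' : ℕ) (h : a ≤ b) (h' : a' ≤ b') (h1 : a' ≤ b) (h2 : a ≤ b') :
    dd a a' + dd b b' ≤ sd a b a' b' := by
  classical
  have hdis : Disjoint (Finset.Ico (min a a') (max a a'))
      (Finset.Ico (min b b' + 1) (max b b' + 1)) := by
    rw [Finset.disjoint_left]
    intro x hx hx'
    rw [Finset.mem_Ico] at hx hx'
    omega
  have hsub : Finset.Ico (min a a') (max a a') ∪ Finset.Ico (min b b' + 1) (max b b' + 1) ⊆
      symmDiff (Finset.Ico a (b + 1)) (Finset.Ico a' (b' + 1)) := by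
    intro x hx
    rw [Finset.mem_union, Finset.mem_Ico, Finset.mem_Ico] at hx
    rw [Finset.mem_symmDiff, Finset.mem_Ico, Finset.mem_Ico]
    omega
  have hc := Finset.card_le_card hsub
  rw [Finset.card_union_of_disjoint hdis, Nat.card_Ico, Nat.card_Ico] at hc
  unfold sd dd
  omega

private lemma srx_apart (a b a' b' : ℕ) (h1 : ¬ (a' ≤ b ∧ a ≤ b')) :
    (b + 1 - a) + (b' + 1 - a') ≤ sd a b a' b' := by
  classical
  have hdis : Disjoint (Finset.Ico a (b + 1)) (Finset.Ico a' (b' + 1)) := by
    rw [Finset.disjoint_left]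
    intro x hx hx'
    rw [Finset.mem_Ico] at hx hx'
    omega
  have hsub : Finset.Ico a (b + 1) ∪ Finset.Ico a' (b' + 1) ⊆
      symmDiff (Finset.Ico a (b + 1)) (Finset.Ico a' (b' + 1)) := by
    intro x hx
    rw [Finset.mem_union, Finset.mem_Ico, Finset.mem_Ico] at hx
    rw [Finset.mem_symmDiff, Finset.mem_Ico, Finset.mem_Ico]
    omega
  have hc := Finset.card_le_card hsub
  rw [Finset.card_union_of_disjoint hdis, Nat.card_Ico, Nat.card_Ico] at hc
  unfold sd
  omega

private lemma srx_ge (n a R : ℕ) (r : ℝ) (h0 : 0 < r) (h1 : r < 1) :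
    ∑ x ∈ Finset.range n, (if R < dd a x then r ^ dd a x else 0) ≤ 2 * r ^ (R + 1) / (1 - r) := by
  classical
  have hr : 0 < 1 - r := by linarith
  have key : ∀ S : Finset ℕ, (∀ i ∈ S, ∀ j ∈ S, dd a i = dd a j → i = j) →
      ∑ x ∈ S, (if R < dd a x then r ^ dd a x else 0) ≤ r ^ (R + 1) * (1 / (1 - r)) := by
    intro S hS
    rw [← Finset.sum_filter]
    have e : ∀ x ∈ S.filter (fun x => R < dd a x), r ^ dd a x =
        r ^ (R + 1) * r ^ (dd a x - (R + 1)) := by
      intro x hx
      rw [Finset.mem_filter] at hx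
      rw [← pow_add]
      congr 1
      omega
    rw [Finset.sum_congr rfl e, ← Finset.mul_sum]
    refine mul_le_mul_of_nonneg_left ?_ (by positivity)
    refine srx_geo _ (fun x => dd a x - (R + 1)) r h0 h1 ?_
    intro i hi j hj hij
    rw [Finset.mem_filter] at hi hj
    exact hS i hi.1 j hj.1 (by omega)
  rw [← Finset.sum_filter_add_sum_filter_not (Finset.range n) (fun x => x ≤ a)]
  have e1 := key ((Finset.range n).filter (fun x => x ≤ a)) (by
    intro i hi j hj hij
    rw [Finset.mem_filter] at hi hj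
    simp only [dd] at hij
    omega)
  have e2 := key ((Finset.range n).filter (fun x => ¬ x ≤ a)) (by
    intro i hi j hj hij
    rw [Finset.mem_filter] at hi hj
    simp only [dd] at hij
    omega)
  calc _ ≤ r ^ (R + 1) * (1 / (1 - r)) + r ^ (R + 1) * (1 / (1 - r)) := add_le_add e1 e2
    _ = 2 * r ^ (R + 1) / (1 - r) := by ring

theorem pf_SRX : T_SRX := by
  classical
  intro r n R a b hr0 hr1 hab hbn
  have hr : 0 < 1 - r := by linarith
  set u : ℕ → ℝ := fun x => if R < dd a x then r ^ dd a x else 0 with hu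
  set v : ℕ → ℝ := fun x => if R < dd b x then r ^ dd b x else 0 with hv
  have hu0 : ∀ x, 0 ≤ u x := by
    intro x
    simp only [hu]
    split_ifs <;> positivity
  have hv0 : ∀ x, 0 ≤ v x := by
    intro x
    simp only [hv]
    split_ifs <;> positivity
  have hpt : ∀ p ∈ QS n \ NS R a b,
      r ^ sd a b p.1 p.2 ≤ (u p.1 * r ^ dd b p.2 + r ^ dd a p.1 * v p.2) +
        r ^ (b + 1 - a) * r ^ (p.2 + 1 - p.1) := by
    intro p hp
    rw [Finset.mem_sdiff] at hp
    obtain ⟨hpQ, hpN⟩ := hp
    have hp2 : p.1 ≤ p.2 := by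
      unfold QS at hpQ
      rw [Finset.mem_filter] at hpQ
      exact hpQ.2
    have hR : R < dd a p.1 ∨ R < dd b p.2 := by
      by_contra hcon
      push Not at hcon
      apply hpN
      unfold NS
      rw [Finset.mem_product, Finset.mem_Icc, Finset.mem_Icc]
      simp only [dd] at hcon
      omega
    have q1 : 0 ≤ u p.1 * r ^ dd b p.2 := mul_nonneg (hu0 _) (by positivity)
    have q3 : 0 ≤ r ^ dd a p.1 * v p.2 := mul_nonneg (by positivity) (hv0 _)
    have q2 : 0 ≤ r ^ (b + 1 - a) * r ^ (p.2 + 1 - p.1) := by positivity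
    by_cases hm : p.1 ≤ b ∧ a ≤ p.2
    · have := pow_le_pow_of_le_one hr0.le hr1.le (srx_meet a b p.1 p.2 hab hp2 hm.1 hm.2)
      rw [pow_add] at this
      rcases hR with h | h
      · have e : u p.1 = r ^ dd a p.1 := by
          simp only [hu]
          rw [if_pos h]
        rw [e]
        linarith
      · have e : v p.2 = r ^ dd b p.2 := by
          simp only [hv]
          rw [if_pos h]
        rw [e]
        linarith
    · have := pow_le_pow_of_le_one hr0.le hr1.le (srx_apart a b p.1 p.2 hm)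
      rw [pow_add] at this
      linarith
  have hsub1 : QS n \ NS R a b ⊆ Finset.range n ×ˢ Finset.range n :=
    Finset.sdiff_subset.trans (by unfold QS; exact Finset.filter_subset _ _)
  have hsub2 : QS n \ NS R a b ⊆
      (Finset.range n ×ˢ Finset.range n).filter (fun p => p.1 ≤ p.2) := by
    intro p hp
    have := (Finset.mem_sdiff.mp hp).1
    unfold QS at this
    exact this
  have hda : ∀ x, 0 ≤ r ^ dd a x := fun x => by positivity
  have hdb : ∀ x, 0 ≤ r ^ dd b x := fun x => by positivity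
  refine (Finset.sum_le_sum hpt).trans ?_
  rw [Finset.sum_add_distrib]
  refine add_le_add ?_ ?_
  · calc ∑ p ∈ QS n \ NS R a b, (u p.1 * r ^ dd b p.2 + r ^ dd a p.1 * v p.2)
        ≤ ∑ p ∈ Finset.range n ×ˢ Finset.range n,
            (u p.1 * r ^ dd b p.2 + r ^ dd a p.1 * v p.2) :=
          Finset.sum_le_sum_of_subset_of_nonneg hsub1
            fun p _ _ => add_nonneg (mul_nonneg (hu0 _) (hdb _)) (mul_nonneg (hda _) (hv0 _))
      _ = (∑ x ∈ Finset.range n, u x) * (∑ y ∈ Finset.range n, r ^ dd b y) +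
          (∑ x ∈ Finset.range n, r ^ dd a x) * ∑ y ∈ Finset.range n, v y := by
          rw [Finset.sum_mul_sum, Finset.sum_mul_sum, Finset.sum_add_distrib,
            Finset.sum_product, Finset.sum_product]
      _ ≤ 2 * r ^ (R + 1) / (1 - r) * (2 / (1 - r)) + 2 / (1 - r) * (2 * r ^ (R + 1) / (1 - r)) :=
          add_le_add
            (mul_le_mul (srx_ge n a R r hr0 hr1) (srx_dd n b r hr0 hr1)
              (Finset.sum_nonneg fun _ _ => hdb _) (by positivity))
            (mul_le_mul (srx_dd n a r hr0 hr1) (srx_ge n b R r hr0 hr1)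
              (Finset.sum_nonneg fun _ _ => hv0 _) (by positivity))
      _ = 8 * r ^ (R + 1) / (1 - r) ^ 2 := by field_simp; norm_num
  · rw [← Finset.mul_sum]
    have h3 : ∑ p ∈ QS n \ NS R a b, r ^ (p.2 + 1 - p.1) ≤ n * (1 / (1 - r)) := by
      refine (Finset.sum_le_sum_of_subset_of_nonneg hsub2 fun p _ _ => by positivity).trans ?_
      rw [Finset.sum_filter, Finset.sum_product]
      calc ∑ x ∈ Finset.range n, ∑ y ∈ Finset.range n,
            (if x ≤ y then r ^ (y + 1 - x) else 0)
          ≤ ∑ _x ∈ Finset.range n, 1 / (1 - r) := by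
            refine Finset.sum_le_sum fun x _ => ?_
            rw [← Finset.sum_filter]
            refine srx_geo _ (fun y => y + 1 - x) r hr0 hr1 ?_
            intro i hi j hj hij
            rw [Finset.mem_filter] at hi hj
            omega
        _ = n * (1 / (1 - r)) := by
            rw [Finset.sum_const, Finset.card_range, nsmul_eq_mul]
    calc r ^ (b + 1 - a) * ∑ p ∈ QS n \ NS R a b, r ^ (p.2 + 1 - p.1)
        ≤ r ^ (b + 1 - a) * (n * (1 / (1 - r))) :=
          mul_le_mul_of_nonneg_left h3 (by positivity)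
      _ = n * (r ^ (b + 1 - a) / (1 - r)) := by ring

end Pool.Agent.H21.EX.SR
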